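import Pool.Agent.Helper71.PY.Goals

/-!
# Packet PY-PFREE: Lagrangian submodules are free
-/

set_option autoImplicit false

namespace Pool.Agent.Helper5.PY

open Pool.Agent.Helper71.PY

theorem pfree (h : G_FREE) : G_PFREE := by
  intro R _ _ _ _ x y hR N _ _ _ _ B P hP
  have hx0 : x ≠ 0 := hR.prx.ne_zero
  let b := Module.Free.chooseBasis R N
  have htf : ∀ (r : R) (n : N), r • n = 0 → r = 0 ∨ n = 0 := by
    intro r n hrn
    by_cases hr : r = 0
    · exact Or.inl hr
    · right
      apply b.equivFun.injective
      funext i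
      have h1 := congrFun (congrArg b.equivFun hrn) i
      rw [map_smul, map_zero, Pi.smul_apply, smul_eq_mul, Pi.zero_apply] at h1
      rw [map_zero, Pi.zero_apply]
      exact (mul_eq_zero.1 h1).resolve_left hr
  have hpure : ∀ (r : R) (n : N), r ≠ 0 → r • n ∈ P → n ∈ P := by
    intro r n hr hn
    refine (hP n).2 fun w hw => ?_
    have h1 := (hP _).1 hn w hw
    rw [map_smul, LinearMap.smul_apply, smul_eq_mul] at h1
    exact (mul_eq_zero.1 h1).resolve_left hr
  haveI : IsNoetherian R N := inferInstance
  haveI : Module.Finite R P := inferInstance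
  refine h R x y hR P ?_ ?_
  · intro r m hrm
    rcases htf r (m : N) (by rw [← Submodule.coe_smul, hrm, Submodule.coe_zero]) with h1 | h1
    · exact Or.inl h1
    · exact Or.inr (Subtype.ext h1)
  · intro m m' hmm
    have h1 : y • (m : N) = x • (m' : N) := by
      rw [← Submodule.coe_smul, hmm, Submodule.coe_smul]
    have h2 : ∀ i, x ∣ b.equivFun (m : N) i := by
      intro i
      have h3 := congrFun (congrArg b.equivFun h1) i
      rw [map_smul, map_smul, Pi.smul_apply, Pi.smul_apply, smul_eq_mul, smul_eq_mul] at h3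
      have h4 : x ∣ y * b.equivFun (m : N) i := ⟨_, h3⟩
      exact (hR.prx.dvd_or_dvd h4).resolve_left hR.ndvd
    choose c hc using h2
    have h5 : (m : N) = x • b.equivFun.symm c := by
      apply b.equivFun.injective
      rw [map_smul, LinearEquiv.apply_symm_apply]
      funext i
      rw [hc i, Pi.smul_apply, smul_eq_mul]
    have h6 : b.equivFun.symm c ∈ P := by
      apply hpure x _ hx0
      rw [← h5]
      exact m.2
    exact ⟨⟨_, h6⟩, Subtype.ext h5⟩

end Pool.Agent.Helper5.PY
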